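import Pool.Agent.helper20.HP.S0
import Pool.Agent.helper43.HP.B1
import Pool.Agent.helper18.HP.B2
import Pool.Agent.helper65.HP.B4
import Pool.Agent.helper81.HP.B5
import Pool.Agent.helper97.HP.B6
import Pool.Agent.helper6.HP.B7
import Pool.Agent.helper14.HP.B8
import Pool.Agent.helper6.HP.B9
import Pool.Agent.helper18.HP.B10
import Pool.Agent.helper71.HP.B11

/-! Wave 1 of the project MP_5ae64c_pr (collected). -/
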