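import Mathlib

/-!
Common definitions for the project MP_5ae64c_pr (height profile of the uniform spanning tree).
-/

open scoped BigOperators Topology
open Filter MeasureTheory

namespace Pool.Agent.helper20.HP

/-! ### Graph side: lazy walk, mixing time, spanning trees, profile -/

section Graph

open Classical in
/-- `t`-step transition probability of the lazy simple random walk on a finite graph. -/
noncomputable def lazyP {V : Type} [Fintype V] (G : SimpleGraph V) : ℕ → V → V → ℝ
  | 0, x, y => if x = y then 1 else 0
  | t + 1, x, y => (1 / 2) * lazyP G t x y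
      + (1 / 2) * ((∑ z, if G.Adj x z then lazyP G t z y else 0)
        / ((Finset.univ.filter (fun z => G.Adj x z)).card : ℝ))

/-- the mixing time of the problem -/
noncomputable def tmix {V : Type} [Fintype V] (G : SimpleGraph V) : ℕ :=
  sInf {t : ℕ | ∀ x y : V, |(Fintype.card V : ℝ) * lazyP G t x y - 1| ≤ 1 / 2}

open Classical in
/-- the finite set of spanning trees of `G` -/
noncomputable def spTrees {V : Type} [Fintype V] (G : SimpleGraph V) : Finset (SimpleGraph V) :=
  Finset.univ.filter (fun T => T ≤ G ∧ T.IsTree)

/-- expectation with respect to the uniform spanning tree of `G` -/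
noncomputable def ustE {V : Type} [Fintype V] (G : SimpleGraph V) (F : SimpleGraph V → ℝ) : ℝ :=
  (∑ T ∈ spTrees G, F T) / ((spTrees G).card : ℝ)

/-- height profile of a tree `T` seen from `o` -/
noncomputable def height {V : Type} [Fintype V] (T : SimpleGraph V) (o : V) (r : ℕ) : ℕ :=
  (Finset.univ.filter (fun v => T.dist o v = r)).card

/-- volume profile of a tree `T` seen from `o` -/
noncomputable def vol {V : Type} [Fintype V] (T : SimpleGraph V) (o : V) (r : ℕ) : ℕ :=
  (Finset.univ.filter (fun v => T.dist o v ≤ r)).card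

end Graph

open Classical in
/-- real valued indicator of a proposition -/
noncomputable def ind (p : Prop) : ℝ := if p then 1 else 0

/-! ### Abstract homogeneous symmetric kernels -/

/-- `t`-step kernel of a kernel `p` -/
def ptOf {V : Type} [Fintype V] [DecidableEq V] (p : V → V → ℝ) : ℕ → V → V → ℝ
  | 0, x, y => if x = y then 1 else 0
  | t + 1, x, y => ∑ z, p x z * ptOf p t z y

/-- A finite homogeneous symmetric Markov kernel whose return probabilities decrease and dominate
the other transition probabilities (as is the case for lazy walk on a transitive graph). -/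
structure HW (V : Type) [Fintype V] [DecidableEq V] where
  p : V → V → ℝ
  nonneg : ∀ x y, 0 ≤ p x y
  sum_one : ∀ x, ∑ y, p x y = 1
  symm : ∀ x y, p x y = p y x
  homog : ∀ x y, ∃ σ : Equiv.Perm V, (∀ u v, p (σ u) (σ v) = p u v) ∧ σ x = y
  anti : ∀ t x, ptOf p (t + 1) x x ≤ ptOf p t x x
  offd : ∀ t x y, ptOf p t x y ≤ ptOf p t x x

variable {V : Type} [Fintype V] [DecidableEq V]

/-- `t`-step transition probabilities -/
def HW.pt (K : HW V) (t : ℕ) (x y : V) : ℝ := ptOf K.p t x y

/-- the common value of the return probabilities `p_t(x,x)` -/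
noncomputable def cc (K : HW V) (t : ℕ) : ℝ := (∑ x, K.pt t x x) / (Fintype.card V : ℝ)

/-- Standing assumptions. `h` is a time after which `p_t ≤ 3/(2n)`; the locality scale used
everywhere is `b = 2 h`. -/
structure Par (K : HW V) (θ : ℝ) (h : ℕ) : Prop where
  one_le : 1 ≤ θ
  green : ∑ t ∈ Finset.range (Nat.sqrt (Fintype.card V) + 1), ((t : ℝ) + 1) * cc K t ≤ θ
  mix : ∀ t, h ≤ t → ∀ x y, K.pt t x y ≤ 3 / (2 * (Fintype.card V : ℝ))
  h_pos : 1 ≤ h
  h_le : 16 * h ≤ Nat.sqrt (Fintype.card V)

/-- `W K k x f` is the expectation of `f l` where `l` is the list of the `k` vertices following `x`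
in the walk started at `x` -/
def W (K : HW V) : ℕ → V → (List V → ℝ) → ℝ
  | 0, _, f => f []
  | k + 1, x, f => ∑ y, K.p x y * W K k y (fun l => f (y :: l))

/-- last vertex of the walk `x :: l` -/
def lst (x : V) (l : List V) : V := l.getLastD x

/-! ### Loop erasure as evolution of a state (a list of vertices, head = tip) -/

/-- one step: if the new vertex `y` is on the path, cut the path back to `y`, otherwise add it -/
def stp (γ : List V) (y : V) : List V :=
  if y ∈ γ then γ.dropWhile (fun z => decide (z ≠ y)) else y :: γ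

/-- state after the steps `l` -/
def run (γ : List V) (l : List V) : List V := l.foldl stp γ

/-- number of steps of the loop erasure of the walk `x :: l` -/
def lel (x : V) (l : List V) : ℕ := (run [x] l).length - 1

/-- long hit: after the word `l1` (started at `x`, with the path `ρ` below `x`) the walk steps to `y`,
which is on the current path but is not among the last `b` vertices of the walk -/
def LH (b : ℕ) (x : V) (ρ l1 : List V) (y : V) : Prop :=
  y ∈ run (x :: ρ) l1 ∧ y ∉ (x :: l1).rtake b

/-- no long hit during the part `l2` of the word `l1 ++ l2` -/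
def NoLH (b : ℕ) (x : V) (ρ l1 l2 : List V) : Prop :=
  ∀ a y c, l2 = a ++ y :: c → ¬ LH b x ρ (l1 ++ a) y

/-- there is a long hit during the last `w` steps of the word `l` -/
def LHin (b w : ℕ) (x : V) (ρ l : List V) : Prop :=
  ∃ l1 y l2, l = l1 ++ y :: l2 ∧ l2.length < w ∧ LH b x ρ l1 y

/-! ### Killed words and the profile function `Phi` -/

/-- total weight of `f x ρ l` over all words `l` of length `t` started at a vertex `x = Γ_i` of the path
`Γ` and avoiding `Γ` afterwards; `ρ` is the part of `Γ` below `x`. `Γ` is a list with the root LAST. -/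
noncomputable def kmT (K : HW V) (Γ : List V) (t : ℕ) (f : V → List V → List V → ℝ) : ℝ :=
  ∑ i : Fin Γ.length, W K t (Γ.get i)
    (fun l => ind (∀ y ∈ l, y ∉ Γ) * f (Γ.get i) (Γ.drop (i + 1)) l)

/-- sum of `kmT` over lengths `t < N` -/
noncomputable def km (K : HW V) (Γ : List V) (N : ℕ) (f : V → List V → List V → ℝ) : ℝ :=
  ∑ t ∈ Finset.range N, kmT K Γ t f

/-- indicator that the state has level `r` -/
noncomputable def lev (r : ℕ) (x : V) (ρ l : List V) : ℝ := ind ((run (x :: ρ) l).length = r + 1)

/-- `Phi K Γ r = ∑_i ∑_t P_{Γ_i}(X[1,t] avoids Γ, i + |LE X[0,t]| = r)` -/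
noncomputable def Phi (K : HW V) (Γ : List V) (r : ℕ) : ℝ := ∑' t, kmT K Γ t (lev r)

/-- truncated version -/
noncomputable def PhiN (K : HW V) (Γ : List V) (N r : ℕ) : ℝ := km K Γ N (lev r)

/-! ### A priori quantities -/

/-- `Zq K T q x = ∑_{t ≤ T} P_x(|LE X[0,t]| = q)` -/
noncomputable def Zq (K : HW V) (T q : ℕ) (x : V) : ℝ :=
  ∑ t ∈ Finset.range (T + 1), W K t x (fun l => ind (lel x l = q))

/-- `Rc K S T x = P(X(0,S] ∩ Y[0,T] = ∅)` for independent walks from `x` -/
noncomputable def Rc (K : HW V) (S T : ℕ) (x : V) : ℝ :=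
  W K S x (fun l => W K T x (fun l' => ind (∀ y ∈ l, y ∉ x :: l')))

/-- constant of the level bound -/
noncomputable def CZ (θ : ℝ) : ℝ := (4 * θ + 8) ^ 2
/-- constant of the profile bound -/
noncomputable def CP (θ : ℝ) : ℝ := 13 * CZ θ * θ

/-! ### The letter model -/

/-- automorphisms of the kernel -/
def Aut (K : HW V) : Subgroup (Equiv.Perm V) where
  carrier := {σ | ∀ u v, K.p (σ u) (σ v) = K.p u v}
  mul_mem' := by
    intro a b ha hb u v
    simp only [Set.mem_setOf_eq] at ha hb
    simp [Equiv.Perm.mul_apply, ha, hb]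
  one_mem' := by intro u v; simp
  inv_mem' := by
    intro a ha u v
    simp only [Set.mem_setOf_eq] at ha
    have := ha (a⁻¹ u) (a⁻¹ v)
    simpa using this.symm

noncomputable instance (K : HW V) : Fintype (Aut K) := Fintype.ofFinite _

/-- step distribution on the automorphism group: `g` with `g o` distributed as `p(o, ·)` and `g`
uniform given `g o` -/
noncomputable def mu (K : HW V) (o : V) (g : Aut K) : ℝ :=
  K.p o (g.1 o) / (Nat.card {s : Aut K // s.1 o = o} : ℝ)

/-- expectation over `k` independent letters with law `mu` -/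
noncomputable def EL (K : HW V) (o : V) : ℕ → (List (Aut K) → ℝ) → ℝ
  | 0, f => f []
  | k + 1, f => ∑ g : Aut K, mu K o g * EL K o k (fun L => f (g :: L))

/-- the vertices following `ψ o` for the letters `L` -/
def vp {K : HW V} (o : V) (ψ : Aut K) : List (Aut K) → List V
  | [] => []
  | g :: L => (ψ * g).1 o :: vp o (ψ * g) L

end Pool.Agent.helper20.HP
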