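import Pool.Agent.helper20.HP.Goal
import Pool.Agent.helper31.HP.A1
import Pool.Agent.helper63.HP.A2
import Pool.Agent.helper13.HP.A3
import Pool.Agent.helper97.HP.A4
import Pool.Agent.helper13.HP.A5
import Pool.Agent.helper71.HP.A6
import Pool.Agent.helper72.HP.A9

/-! Wave 0 of the project MP_5ae64c_pr (collected). -/
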