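import Pool.Agent.helper20.HP.Defs

/-!
Final goals of the project MP_5ae64c_pr.
-/

open scoped BigOperators Topology
open Filter MeasureTheory

namespace Pool.Agent.helper20.HP

/-- Data: a sequence of finite connected vertex-transitive graphs satisfying (A1), (A2). -/
structure Setup where
  V : ℕ → Type
  [ft : ∀ k, Fintype (V k)]
  [de : ∀ k, DecidableEq (V k)]
  G : ∀ k, SimpleGraph (V k)
  conn : ∀ k, (G k).Connected
  trans : ∀ k (x y : V k), ∃ f : G k ≃g G k, f x = y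
  card : Tendsto (fun k => Fintype.card (V k)) atTop atTop
  θ : ℝ
  A1 : ∀ k (x : V k), ∑ t ∈ Finset.range (Nat.sqrt (Fintype.card (V k)) + 1),
    ((t : ℝ) + 1) * lazyP (G k) t x x ≤ θ
  α : ℝ
  α_pos : 0 < α
  A2 : Tendsto (fun k => (tmix (G k) : ℝ) / (Fintype.card (V k) : ℝ) ^ (1 / 2 - α)) atTop (𝓝 0)
  o : ∀ k, V k

attribute [instance] Setup.ft Setup.de

/-- macroscopic L2 continuity of the height profile, uniformly along the sequence -/
def StarGoal : Prop := ∀ (S : Setup) (A ε : ℝ), 0 < A → 0 < ε → ∃ δ : ℝ, 0 < δ ∧ ∀ᶠ k in atTop,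
  ∀ r r' : ℕ, (r : ℝ) ≤ A * Real.sqrt (Fintype.card (S.V k)) →
    (r' : ℝ) ≤ A * Real.sqrt (Fintype.card (S.V k)) →
    |(r : ℝ) - r'| ≤ δ * Real.sqrt (Fintype.card (S.V k)) →
    ustE (S.G k) (fun T => ((height T (S.o k) r : ℝ) - height T (S.o k) r') ^ 2)
      ≤ ε * (Fintype.card (S.V k) : ℝ)

/-- The final theorem -/
def FinalGoal : Prop := ∀ (S : Setup) (β : ℕ → ℝ) (b₁ b₂ : ℝ), 0 < b₁ →
  (∀ k, b₁ ≤ β k ∧ β k ≤ b₂) →
  ∀ (Ω : Type) (_ : MeasurableSpace Ω) (P : Measure Ω) (_ : IsProbabilityMeasure P)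
    (ell : ℝ → Ω → ℝ),
    (∀ r, 0 < r → AEMeasurable (ell r) P) →
    (∀ᵐ ω ∂P, ContinuousOn (fun r => ell r ω) (Set.Ioi 0)) →
    (∀ᵐ ω ∂P, ∀ r, 0 < r → IntervalIntegrable (fun u => ell u ω) volume 0 r) →
    (∀ (m : ℕ) (s : Fin m → ℝ), (∀ i, 0 < s i) → ∀ F : BoundedContinuousFunction (Fin m → ℝ) ℝ,
      Tendsto (fun k => ustE (S.G k) (fun T => F (fun i =>
          (vol T (S.o k) ⌊s i * β k * Real.sqrt (Fintype.card (S.V k))⌋₊ : ℝ)
            / (Fintype.card (S.V k) : ℝ)))) atTop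
        (𝓝 (∫ ω, F (fun i => ∫ u in (0 : ℝ)..(s i), ell u ω) ∂P))) →
    ∀ (m : ℕ) (s : Fin m → ℝ), (∀ i, 0 < s i) → ∀ F : BoundedContinuousFunction (Fin m → ℝ) ℝ,
      Tendsto (fun k => ustE (S.G k) (fun T => F (fun i =>
          β k / Real.sqrt (Fintype.card (S.V k))
            * (height T (S.o k) ⌊s i * β k * Real.sqrt (Fintype.card (S.V k))⌋₊ : ℝ)))) atTop
        (𝓝 (∫ ω, F (fun i => ell (s i) ω) ∂P))

end Pool.Agent.helper20.HP
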