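import Pool.Agent.helper20.HP.F02
import Pool.Agent.helper39.HP.M1
import Pool.Agent.helper72.HP.M2
import Pool.Agent.helper65.HP.Final

/-! Wave 3 of the project MP_5ae64c_pr (collected). -/
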