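import Pool.Agent.helper20.HP.Goal

/-!
Definitions for the exchange argument (wave 2), letter model.
-/

open scoped BigOperators Topology
open Filter MeasureTheory

namespace Pool.Agent.helper20.HP

variable {V : Type} [Fintype V] [DecidableEq V]

theorem exists_frame_aux (K : HW V) (o x : V) : ∃ ψ : Aut K, ψ.1 o = x := by
  obtain ⟨σ, hσ, h⟩ := K.homog o x
  exact ⟨⟨σ, hσ⟩, h⟩

/-- a chosen frame above `x` -/
noncomputable def fr (K : HW V) (o x : V) : Aut K := Classical.choose (exists_frame_aux K o x)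

/-- the letter word `L` from the frame above `x` avoids `Γ` -/
def okL (K : HW V) (o : V) (Γ : List V) (x : V) (L : List (Aut K)) : Prop :=
  ∀ y ∈ vp o (fr K o x) L, y ∉ Γ

/-- number of vertices of the state after the letter word `L` started at `x` above the path `ρ` -/
noncomputable def stL (K : HW V) (o : V) (x : V) (ρ : List V) (L : List (Aut K)) : ℕ :=
  (run (x :: ρ) (vp o (fr K o x) L)).length

/-- killed words in the letter model -/
noncomputable def kmTL (K : HW V) (o : V) (Γ : List V) (t : ℕ)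
    (f : V → List V → List (Aut K) → ℝ) : ℝ :=
  ∑ i : Fin Γ.length, EL K o t (fun L => ind (okL K o Γ (Γ.get i) L) *
    f (Γ.get i) (Γ.drop (i + 1)) L)

/-- sum over lengths `S ≤ t < N` -/
noncomputable def kmL (K : HW V) (o : V) (Γ : List V) (S N : ℕ)
    (f : V → List V → List (Aut K) → ℝ) : ℝ :=
  ∑ t ∈ Finset.Ico S N, kmTL K o Γ t f

/-- no two equal entries at distance `≥ b` -/
def NoRet (b : ℕ) (l : List V) : Prop :=
  ∀ i j : ℕ, ∀ hi : i < l.length, ∀ hj : j < l.length, i + b ≤ j → l[i] ≠ l[j]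

/-- The exchange event: `B` = last `b` letters before the junction, `R` = inserted letters,
`F` = first `b` letters after the junction. -/
def Ev (K : HW V) (o : V) (b g : ℕ) (B R F : List (Aut K)) : Prop :=
  lel o (vp o 1 R) = g ∧
  (∀ y ∈ vp o B.prod R, y ∉ o :: vp o 1 B) ∧
  (∀ y ∈ vp o (B.prod * R.prod) F, y ∉ o :: vp o 1 (B ++ R)) ∧
  (∀ y ∈ vp o B.prod F, y ∉ o :: vp o 1 B) ∧
  NoRet b (o :: vp o 1 (B ++ R))

/-- weight of the insertions at the junction of a window `w` (length `2b+U`, junction after `b+U` letters) -/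
noncomputable def f1 (K : HW V) (o : V) (b g U : ℕ) (w : List (Aut K)) : ℝ :=
  ∑ u ∈ Finset.range (U + 1), EL K o u (fun R =>
    ind (Ev K o b g ((w.drop U).take b) R (w.drop (b + U))))

/-- number of possible deletions at the junction of a window `w` -/
noncomputable def f2 (K : HW V) (o : V) (b g U : ℕ) (w : List (Aut K)) : ℝ :=
  ∑ u ∈ Finset.range (U + 1),
    ind (Ev K o b g ((w.drop (U - u)).take b) ((w.drop (b + U - u)).take u) (w.drop (b + U)))

/-- mean number of insertions -/
noncomputable def kap (K : HW V) (o : V) (b g U : ℕ) : ℝ :=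
  ∑ u ∈ Finset.range (U + 1), EL K o b (fun B => EL K o u (fun R => EL K o b (fun F =>
    ind (Ev K o b g B R F))))

/-- window of length `2b+U` whose junction is `m` letters before the end of `L` -/
def win {α : Type} (b U m : ℕ) (L : List α) : List α :=
  (L.drop (L.length - m - (b + U))).take (2 * b + U)

/-- triple sums over `P, R, F`, `|F| = m ∈ (m0, m0+M]`, `|R| = u ≤ U`, `S ≤ |P| + |F| < N` -/
noncomputable def tri (K : HW V) (o : V) (Γ : List V) (m0 M U S N : ℕ)
    (f : V → List V → List (Aut K) → List (Aut K) → List (Aut K) → ℝ) : ℝ :=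
  ∑ m ∈ Finset.Ioc m0 (m0 + M), ∑ u ∈ Finset.range (U + 1), ∑ t ∈ Finset.Ico S N,
    ∑ i : Fin Γ.length, EL K o (t - m) (fun P => EL K o u (fun R => EL K o m (fun F =>
      f (Γ.get i) (Γ.drop (i + 1)) P R F)))

/-- integrand of `G1` : the word `P F` has level `r` -/
noncomputable def g1 (K : HW V) (o : V) (Γ : List V) (b g r : ℕ) (x : V) (ρ : List V)
    (P R F : List (Aut K)) : ℝ :=
  ind (Ev K o b g (P.rtake b) R (F.take b)) * ind (okL K o Γ x (P ++ F)) *
    ind (stL K o x ρ (P ++ F) = r + 1)

/-- integrand of `G2` : the word `P R F` has level `r + g` -/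
noncomputable def g2 (K : HW V) (o : V) (Γ : List V) (b g r : ℕ) (x : V) (ρ : List V)
    (P R F : List (Aut K)) : ℝ :=
  ind (Ev K o b g (P.rtake b) R (F.take b)) * ind (okL K o Γ x (P ++ (R ++ F))) *
    ind (stL K o x ρ (P ++ (R ++ F)) = r + g + 1)

end Pool.Agent.helper20.HP
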