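import Pool.Agent.helper20.HP.Defs2

/-!
Definitions for wave 3 (positivity, shifts, unit scale interface, Theorem M).
-/

open scoped BigOperators Topology
open Filter MeasureTheory

namespace Pool.Agent.helper20.HP

variable {V : Type} [Fintype V] [DecidableEq V]

/-- positions: `Y` is a letter word describing the walk at times `-b, ..., ` ; time `s` is after `b + s` letters.
`Cs` : both the walk itself and the fresh future `F` avoid, after time `s` and for `b` steps, the vertices of the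
times `[s-b, s]`. -/
def Cs (K : HW V) (o : V) (b s : ℕ) (Y F : List (Aut K)) : Prop :=
  (∀ y ∈ vp o (Y.take (b + s)).prod ((Y.drop (b + s)).take b),
    y ∉ (o :: vp o 1 (Y.take (b + s))).rtake (b + 1)) ∧
  (∀ y ∈ vp o (Y.take (b + s)).prod F, y ∉ (o :: vp o 1 (Y.take (b + s))).rtake (b + 1))

/-- `Hs` : the fresh future `F` placed at time `s` avoids the vertices of the times `[-b, s-b-1]` -/
def Hs (K : HW V) (o : V) (b s : ℕ) (Y F : List (Aut K)) : Prop :=
  ∀ y ∈ vp o (Y.take (b + s)).prod F, y ∉ (o :: vp o 1 (Y.take (b + s))).rdrop (b + 1)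

/-- level of the time `s` in the walk started at time `0` -/
def lam (K : HW V) (o : V) (b s : ℕ) (Y : List (Aut K)) : ℕ := lel o (vp o 1 ((Y.drop b).take s))

/-- width of the mesoscopic windows -/
noncomputable def wd (n : ℕ) (α : ℝ) : ℕ := ⌊(n : ℝ) ^ (1 / 2 - α / 8)⌋₊

/-- exponent used along a sequence -/
noncomputable def Setup.a (S : Setup) : ℝ := min S.α (1 / 4)

/-- the sequence of kernels of a setup -/
def IsKer (S : Setup) (K : ∀ k, HW (S.V k)) : Prop :=
  ∀ k t x y, (K k).pt t x y = lazyP (S.G k) t x y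

/-- UNIT SCALE (owned by helper98): no oscillation of the profile at rational frequencies -/
def EQGoal : Prop := ∀ (S : Setup) (K : ∀ k, HW (S.V k)), IsKer S K →
  ∀ (q : ℕ) (z : ℂ), z ^ q = 1 → z ≠ 1 → 1 ≤ q → ∀ A ε : ℝ, 0 < ε → ∀ᶠ k in atTop,
  ∀ Γ : List (S.V k), Γ.Nodup → (Γ.length : ℝ) ≤ A * Nat.sqrt (Fintype.card (S.V k)) →
  ∀ r : ℕ, (r : ℝ) ≤ A * Nat.sqrt (Fintype.card (S.V k)) →
    ‖∑ y ∈ Finset.range (wd (Fintype.card (S.V k)) S.a),
        z ^ (r + y) * ((Phi (K k) Γ (r + y) : ℝ) : ℂ)‖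
      ≤ ε * (wd (Fintype.card (S.V k)) S.a * Nat.sqrt (Fintype.card (S.V k)))

/-- THEOREM M: macroscopic continuity of the profile function, uniformly in the path -/
def MGoal : Prop := ∀ (S : Setup) (K : ∀ k, HW (S.V k)), IsKer S K → ∀ A ε : ℝ, 0 < ε →
  ∃ δ : ℝ, 0 < δ ∧ ∀ᶠ k in atTop,
  ∀ Γ : List (S.V k), Γ.Nodup → (Γ.length : ℝ) ≤ A * Nat.sqrt (Fintype.card (S.V k)) →
  ∀ r r' : ℕ, (r : ℝ) ≤ A * Nat.sqrt (Fintype.card (S.V k)) →
    (r' : ℝ) ≤ A * Nat.sqrt (Fintype.card (S.V k)) →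
    |(r : ℝ) - r'| ≤ δ * Nat.sqrt (Fintype.card (S.V k)) →
    |Phi (K k) Γ r - Phi (K k) Γ r'| ≤ ε * Nat.sqrt (Fintype.card (S.V k))

end Pool.Agent.helper20.HP
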