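import Pool.Agent.helper20.HP.Defs2
import Pool.Agent.helper20.HP.S1
import Pool.Agent.helper35.HP.E0
import Pool.Agent.helper35.HP.E1
import Pool.Agent.helper26.HP.E2
import Pool.Agent.helper93.HP.E3
import Pool.Agent.helper29.HP.E4
import Pool.Agent.helper26.HP.E5
import Pool.Agent.helper81.HP.E6
import Pool.Agent.helper63.HP.E7
import Pool.Agent.helper99.HP.E8F

/-! Wave 2 of the project MP_5ae64c_pr (collected). -/
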