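import Pool.Agent.helper20.HP.Defs3
import Pool.Agent.helper20.HP.S2
import Pool.Agent.helper39.HP.P4
import Pool.Agent.helper64.HP.F0
import Pool.Agent.helper2.HP.F2

/-! Wave 3, final forms of `shift_mult` and `flat_of_EQ` (MP_5ae64c_pr). -/

open scoped BigOperators Topology
open Filter MeasureTheory

namespace Pool.Agent.helper20.HP

theorem shift_mult (θ : ℝ) : ∃ δ0 : ℕ, 1 ≤ δ0 ∧ ∀ A α ε : ℝ, 0 < α → α ≤ 1 / 4 → 0 < ε → ∃ n0 : ℕ,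
    ∀ (V : Type) [Fintype V] [DecidableEq V] (K : HW V) (h : ℕ), Par K θ h → n0 ≤ Fintype.card V →
    (h : ℝ) ≤ (Fintype.card V : ℝ) ^ (1 / 2 - α) →
    ∀ Γ : List V, Γ.Nodup → (Γ.length : ℝ) ≤ A * Nat.sqrt (Fintype.card V) →
    ∀ r v : ℕ, (r : ℝ) ≤ A * Nat.sqrt (Fintype.card V) → 1 ≤ v →
    ((δ0 * v : ℕ) : ℝ) ≤ 2 * (Fintype.card V : ℝ) ^ (1 / 2 - α / 8) →
    |Phi K Γ r - Phi K Γ (r + δ0 * v)| ≤ ε * Nat.sqrt (Fintype.card V) :=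
  shift_mult_of (fun V _ _ K θ h hP o B0 v Mc hv h1 h2 h3 => kap_pos hP o B0 v Mc hv h1 h2 h3) θ

theorem flat_of_EQ (hEQ : EQGoal) (S : Setup) (K : ∀ k, HW (S.V k)) (hK : IsKer S K) (A ε : ℝ)
    (hε : 0 < ε) : ∀ᶠ k in atTop,
    ∀ Γ : List (S.V k), Γ.Nodup → (Γ.length : ℝ) ≤ A * Nat.sqrt (Fintype.card (S.V k)) →
    ∀ r y : ℕ, (r : ℝ) ≤ A * Nat.sqrt (Fintype.card (S.V k)) → y < wd (Fintype.card (S.V k)) S.a →
    |Phi (K k) Γ (r + y) - Phi (K k) Γ r| ≤ ε * Nat.sqrt (Fintype.card (S.V k)) :=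
  flat_of_EQ_of (fun θ => shift_mult θ) hEQ S K hK A ε hε

end Pool.Agent.helper20.HP
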